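import Pool.Agent.Helper54.SAW.Defs

set_option autoImplicit false

/-!
# Self-avoiding walks leave a box (block C3, helper89)
-/

namespace Pool.Agent.Helper89.SAW

open Pool.Agent.Helper54.SAW Finset

theorem mem_lists {α : Type*} [Fintype α] [DecidableEq α] {n : ℕ} {l : List α} :
    l ∈ lists α n ↔ l.length = n := by
  unfold lists
  rw [Finset.mem_image]
  constructor
  · rintro ⟨f, -, rfl⟩
    exact List.length_ofFn
  · rintro rfl
    exact ⟨l.get, Finset.mem_univ _, List.ofFn_get l⟩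

theorem mem_SAWs {n : ℕ} {l : List St} : l ∈ SAWs n ↔ l.length = n ∧ Saw l := by
  unfold SAWs
  simp only [Finset.mem_filter, mem_lists]

/-- exchange of the axes -/
def sw (s : St) : St := if s.1 = 0 then (1, s.2) else (0, s.2)

theorem dx_fx : ∀ s : St, dx (fx s) = -dx s := by decide

theorem dy_fx : ∀ s : St, dy (fx s) = dy s := by decide

theorem dx_sw : ∀ s : St, dx (sw s) = dy s := by decide

theorem dy_sw : ∀ s : St, dy (sw s) = dx s := by decide

theorem X_map_fx (l : List St) : X (l.map fx) = -X l := by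
  induction l with
  | nil => rfl
  | cons s l ih =>
    have h1 : X ((s :: l).map fx) = dx (fx s) + X (l.map fx) := by simp [X]
    have h2 : X (s :: l) = dx s + X l := by simp [X]
    have h3 := dx_fx s
    rw [h1, h2, ih, h3]
    ring

theorem Y_map_fx (l : List St) : Y (l.map fx) = Y l := by
  induction l with
  | nil => rfl
  | cons s l ih =>
    have h1 : Y ((s :: l).map fx) = dy (fx s) + Y (l.map fx) := by simp [Y]
    have h2 : Y (s :: l) = dy s + Y l := by simp [Y]
    have h3 := dy_fx s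
    rw [h1, h2, ih, h3]

theorem X_map_sw (l : List St) : X (l.map sw) = Y l := by
  induction l with
  | nil => rfl
  | cons s l ih =>
    have h1 : X ((s :: l).map sw) = dx (sw s) + X (l.map sw) := by simp [X]
    have h2 : Y (s :: l) = dy s + Y l := by simp [Y]
    have h3 := dx_sw s
    rw [h1, h2, ih, h3]

theorem Y_map_sw (l : List St) : Y (l.map sw) = X l := by
  induction l with
  | nil => rfl
  | cons s l ih =>
    have h1 : Y ((s :: l).map sw) = dy (sw s) + Y (l.map sw) := by simp [Y]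
    have h2 : X (s :: l) = dx s + X l := by simp [X]
    have h3 := dy_sw s
    rw [h1, h2, ih, h3]

theorem fx_inj : Function.Injective fx := by decide

theorem sw_inj : Function.Injective sw := by decide

theorem X_append (u v : List St) : X (u ++ v) = X u + X v := by simp [X]

theorem Y_append (u v : List St) : Y (u ++ v) = Y u + Y v := by simp [Y]

theorem saw_map {g : St → St} (hg : ∀ v : List St, X (v.map g) = 0 → Y (v.map g) = 0 →
    X v = 0 ∧ Y v = 0) {l : List St} (h : Saw l) : Saw (l.map g) := by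
  intro u v t hl hv h0
  obtain ⟨a, t', rfl, h1, rfl⟩ := List.map_eq_append_iff.1 hl
  obtain ⟨u', v', rfl, rfl, rfl⟩ := List.map_eq_append_iff.1 h1
  exact h u' v' t' rfl (fun h2 => hv (by rw [h2]; rfl)) (hg _ h0.1 h0.2)

theorem card_le {n : ℕ} {g : St → St} (hg : ∀ v : List St, X (v.map g) = 0 → Y (v.map g) = 0 →
    X v = 0 ∧ Y v = 0) (hi : Function.Injective g) (P Q : List St → Prop) [DecidablePred P]
    [DecidablePred Q] (h : ∀ l, P l → Q (l.map g)) :
    ((SAWs n).filter P).card ≤ ((SAWs n).filter Q).card := by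
  refine Finset.card_le_card_of_injOn (fun l => l.map g) ?_ ?_
  · intro l hl
    rw [Finset.mem_coe, Finset.mem_filter, mem_SAWs] at hl
    show l.map g ∈ _
    rw [Finset.mem_coe, Finset.mem_filter, mem_SAWs]
    exact ⟨⟨by rw [List.length_map]; exact hl.1.1, saw_map hg hl.1.2⟩, h l hl.2⟩
  · intro l _ l' _ h1
    exact List.map_injective_iff.2 hi h1

/-- the points of a self-avoiding walk are distinct -/
theorem pts_inj {n : ℕ} {l : List St} (hl : l.length = n) (h : Saw l) {s t : ℕ} (hs : s ≤ n)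
    (ht : t ≤ n) (hX : X (l.take s) = X (l.take t)) (hY : Y (l.take s) = Y (l.take t)) : s = t := by
  have key : ∀ s t : ℕ, s < t → t ≤ n → X (l.take s) = X (l.take t) →
      Y (l.take s) = Y (l.take t) → False := by
    intro s t hst ht hX hY
    have h1 : l.take t = l.take s ++ (l.take t).drop s := by
      conv_lhs => rw [← List.take_append_drop s (l.take t)]
      rw [List.take_take, min_eq_left hst.le]
    have h2 : l = l.take s ++ (l.take t).drop s ++ l.drop t := by
      rw [← h1, List.take_append_drop]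
    refine h _ _ _ h2 ?_ ?_
    · intro h3
      have := congrArg List.length h3
      rw [List.length_drop, List.length_take, List.length_nil, hl, min_eq_left ht] at this
      omega
    · rw [h1, X_append] at hX
      rw [h1, Y_append] at hY
      constructor <;> linarith
  rcases lt_trichotomy s t with h1 | h1 | h1
  · exact (key s t h1 ht hX hY).elim
  · exact h1
  · exact (key t s h1 hs hX.symm hY.symm).elim

theorem exists_far {n M : ℕ} (hM : 1 ≤ M) (h : (2 * M - 1) ^ 2 ≤ n) {l : List St}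
    (hl : l.length = n) (hs : Saw l) : ∃ t, t ≤ n ∧ ((M : ℤ) ≤ X (l.take t) ∨
      (M : ℤ) ≤ -X (l.take t) ∨ (M : ℤ) ≤ Y (l.take t) ∨ (M : ℤ) ≤ -Y (l.take t)) := by
  by_contra hne
  push Not at hne
  have h1 : (Finset.range (n + 1)).card ≤
      ((Finset.Icc (-((M : ℤ) - 1)) ((M : ℤ) - 1)) ×ˢ
        (Finset.Icc (-((M : ℤ) - 1)) ((M : ℤ) - 1))).card := by
    refine Finset.card_le_card_of_injOn (fun t => (X (l.take t), Y (l.take t))) ?_ ?_
    · intro t ht
      rw [Finset.mem_coe, Finset.mem_range] at ht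
      obtain ⟨h1, h2, h3, h4⟩ := hne t (by omega)
      show (X (l.take t), Y (l.take t)) ∈ _
      rw [Finset.mem_coe, Finset.mem_product, Finset.mem_Icc, Finset.mem_Icc]
      constructor <;> constructor <;> simp only <;> omega
    · intro s hs' t ht' h2
      rw [Finset.mem_coe, Finset.mem_range] at hs' ht'
      simp only [Prod.mk.injEq] at h2
      exact pts_inj hl hs (by omega) (by omega) h2.1 h2.2
  rw [Finset.card_range, Finset.card_product, Int.card_Icc] at h1
  have h2 : ((M : ℤ) - 1 + 1 - -((M : ℤ) - 1)).toNat = 2 * M - 1 := by omega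
  rw [h2, ← pow_two] at h1
  omega

open Classical in
theorem box (n M : ℕ) (hM : 1 ≤ M) (h : (2 * M - 1) ^ 2 ≤ n) :
    (SAWs n).card ≤ 4 * ((SAWs n).filter (fun l => ∃ t, t ≤ n ∧ (M : ℤ) ≤ X (l.take t))).card := by
  have hsub : SAWs n ⊆
      ((SAWs n).filter (fun l => ∃ t, t ≤ n ∧ (M : ℤ) ≤ X (l.take t)) ∪
      (SAWs n).filter (fun l => ∃ t, t ≤ n ∧ (M : ℤ) ≤ -X (l.take t))) ∪
      ((SAWs n).filter (fun l => ∃ t, t ≤ n ∧ (M : ℤ) ≤ Y (l.take t)) ∪
      (SAWs n).filter (fun l => ∃ t, t ≤ n ∧ (M : ℤ) ≤ -Y (l.take t))) := by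
    intro l hl
    have hl' := mem_SAWs.1 hl
    obtain ⟨t, ht, h1⟩ := exists_far hM h hl'.1 hl'.2
    simp only [Finset.mem_union, Finset.mem_filter]
    rcases h1 with h1 | h1 | h1 | h1
    · exact Or.inl (Or.inl ⟨hl, t, ht, h1⟩)
    · exact Or.inl (Or.inr ⟨hl, t, ht, h1⟩)
    · exact Or.inr (Or.inl ⟨hl, t, ht, h1⟩)
    · exact Or.inr (Or.inr ⟨hl, t, ht, h1⟩)
  have h2 := card_le (n := n) (g := fx) (fun v h1 h2 => by
      rw [X_map_fx] at h1
      rw [Y_map_fx] at h2
      exact ⟨by linarith, h2⟩) fx_inj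
    (fun l => ∃ t, t ≤ n ∧ (M : ℤ) ≤ -X (l.take t)) (fun l => ∃ t, t ≤ n ∧ (M : ℤ) ≤ X (l.take t))
    (by
      rintro l ⟨t, ht, h1⟩
      refine ⟨t, ht, ?_⟩
      rw [← List.map_take, X_map_fx]
      exact h1)
  have h3 := card_le (n := n) (g := sw) (fun v h1 h2 => by
      rw [X_map_sw] at h1
      rw [Y_map_sw] at h2
      exact ⟨h2, h1⟩) sw_inj
    (fun l => ∃ t, t ≤ n ∧ (M : ℤ) ≤ Y (l.take t)) (fun l => ∃ t, t ≤ n ∧ (M : ℤ) ≤ X (l.take t))
    (by
      rintro l ⟨t, ht, h1⟩
      refine ⟨t, ht, ?_⟩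
      rw [← List.map_take, X_map_sw]
      exact h1)
  have h4 := card_le (n := n) (g := fun s => fx (sw s)) (fun v h1 h2 => by
      have e1 : v.map (fun s => fx (sw s)) = (v.map sw).map fx := by simp
      rw [e1, X_map_fx, X_map_sw] at h1
      rw [e1, Y_map_fx, Y_map_sw] at h2
      exact ⟨h2, by linarith⟩) (fun a b hab => sw_inj (fx_inj hab))
    (fun l => ∃ t, t ≤ n ∧ (M : ℤ) ≤ -Y (l.take t)) (fun l => ∃ t, t ≤ n ∧ (M : ℤ) ≤ X (l.take t))
    (by
      rintro l ⟨t, ht, h1⟩
      refine ⟨t, ht, ?_⟩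
      have e1 : (l.take t).map (fun s => fx (sw s)) = ((l.take t).map sw).map fx := by
        rw [List.map_map]
        rfl
      rw [← List.map_take, e1, X_map_fx, X_map_sw]
      exact h1)
  have h5 := Finset.card_le_card hsub
  have h6 := Finset.card_union_le
    ((SAWs n).filter (fun l => ∃ t, t ≤ n ∧ (M : ℤ) ≤ X (l.take t)) ∪
      (SAWs n).filter (fun l => ∃ t, t ≤ n ∧ (M : ℤ) ≤ -X (l.take t)))
    ((SAWs n).filter (fun l => ∃ t, t ≤ n ∧ (M : ℤ) ≤ Y (l.take t)) ∪
      (SAWs n).filter (fun l => ∃ t, t ≤ n ∧ (M : ℤ) ≤ -Y (l.take t)))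
  have h7 := Finset.card_union_le
    ((SAWs n).filter (fun l => ∃ t, t ≤ n ∧ (M : ℤ) ≤ X (l.take t)))
    ((SAWs n).filter (fun l => ∃ t, t ≤ n ∧ (M : ℤ) ≤ -X (l.take t)))
  have h8 := Finset.card_union_le
    ((SAWs n).filter (fun l => ∃ t, t ≤ n ∧ (M : ℤ) ≤ Y (l.take t)))
    ((SAWs n).filter (fun l => ∃ t, t ≤ n ∧ (M : ℤ) ≤ -Y (l.take t)))
  omega

end Pool.Agent.Helper89.SAW
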